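import Pool.Agent.Helper68.LM.St

set_option autoImplicit false

open MeasureTheory Set Filter Topology
open scoped ENNReal RealInnerProductSpace FourierTransform

namespace Pool.Agent.Helper84.LM

open Pool.Agent.Helper68.LM

/-- the exponential -/
noncomputable def fsE (x ξ : Pl) : ℂ :=
  Complex.exp (((-2 * Real.pi * ⟪x, ξ⟫ : ℝ) : ℂ) * Complex.I)

theorem fs_ft (g : Pl → ℝ) (ξ : Pl) : ft g ξ = ∫ x, fsE x ξ * (g x : ℂ) := by
  unfold ft fsE
  rw [Real.fourier_eq']
  rfl

theorem fs_norm (x ξ : Pl) : ‖fsE x ξ‖ = 1 := Complex.norm_exp_ofReal_mul_I _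

theorem fs_cont (ξ : Pl) : Continuous fun x : Pl => fsE x ξ := by
  unfold fsE
  fun_prop

theorem fs_add (x y ξ : Pl) : fsE (x + y) ξ = fsE x ξ * fsE y ξ := by
  unfold fsE
  rw [← Complex.exp_add]
  congr 1
  rw [inner_add_left]
  push_cast
  ring

theorem fs_smul (s : ℝ) (z ξ : Pl) : fsE (s • z) ξ = fsE z (s • ξ) := by
  unfold fsE
  rw [real_inner_smul_left, real_inner_smul_right]

theorem fs_intBB (g : Pl → ℝ) (hg : BB g) : Integrable g := by
  obtain ⟨hm, K, hK, hs⟩ := hg
  have hK0 : 0 ≤ K := (abs_nonneg _).trans (hK 0)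
  have h1 : Integrable (indicator (Metric.closedBall (0 : Pl) K) fun _ => K) :=
    (integrable_indicator_iff Metric.isClosed_closedBall.measurableSet).2
      (integrableOn_const (measure_closedBall_lt_top.ne))
  refine h1.mono' hm.aestronglyMeasurable (Filter.Eventually.of_forall fun x => ?_)
  by_cases hx : x ∈ Metric.closedBall (0 : Pl) K
  · rw [indicator_of_mem hx, Real.norm_eq_abs]
    exact hK x
  · rw [indicator_of_notMem hx, hs x (by simpa using hx), norm_zero]

theorem fs_intE (g : Pl → ℝ) (hg : Integrable g) (ξ : Pl) :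
    Integrable fun x => fsE x ξ * (g x : ℂ) := by
  refine (hg.ofReal (𝕜 := ℂ)).mono
    ((fs_cont ξ).aestronglyMeasurable.mul hg.ofReal.aestronglyMeasurable)
    (Filter.Eventually.of_forall fun x => ?_)
  rw [norm_mul, fs_norm, one_mul]
  exact le_rfl

theorem hFS (hPH : StPH) : StFS := by
  obtain ⟨hphc, hph0, hph1, hphI, hphInt, -⟩ := hPH
  refine ⟨?_, ?_, ?_, ?_⟩
  · intro s g hs hg ξ
    have hgI := fs_intBB g hg
    have hgm := hg.1
    have hF : Integrable (Function.uncurry fun (x z : Pl) =>
        fsE x ξ * ((ph z : ℂ) * (g (x - s • z) : ℂ))) (volume.prod volume) := by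
      have hmeas : AEStronglyMeasurable (Function.uncurry fun (x z : Pl) =>
          fsE x ξ * ((ph z : ℂ) * (g (x - s • z) : ℂ))) (volume.prod volume) := by
        have h1 : Measurable fun p : Pl × Pl => fsE p.1 ξ :=
          ((fs_cont ξ).comp continuous_fst).measurable
        have h2 : Measurable fun p : Pl × Pl => (ph p.2 : ℂ) :=
          (Complex.continuous_ofReal.comp (hphc.comp continuous_snd)).measurable
        have h3 : Measurable fun p : Pl × Pl => (g (p.1 - s • p.2) : ℂ) :=
          Complex.measurable_ofReal.comp (hgm.comp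
            (by fun_prop : Measurable fun p : Pl × Pl => p.1 - s • p.2))
        exact (h1.mul (h2.mul h3)).aestronglyMeasurable
      refine (integrable_prod_iff' hmeas).2 ⟨Filter.Eventually.of_forall fun z => ?_, ?_⟩
      · have h4 : Integrable fun x => (ph z * g (x - s • z)) :=
          (hgI.comp_sub_right (s • z)).const_mul (ph z)
        have h5 := fs_intE _ h4 ξ
        refine h5.congr (Filter.Eventually.of_forall fun x => ?_)
        simp only [Function.uncurry_apply_pair]
        push_cast
        ring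
      · have h6 : (fun z : Pl => ∫ x : Pl, ‖Function.uncurry (fun (x z : Pl) =>
            fsE x ξ * ((ph z : ℂ) * (g (x - s • z) : ℂ))) (x, z)‖)
            = fun z => ph z * ∫ x, ‖g x‖ := by
          funext z
          rw [← integral_sub_right_eq_self (fun x => ‖g x‖) (s • z), ← integral_const_mul]
          refine integral_congr_ae (Filter.Eventually.of_forall fun x => ?_)
          simp only [Function.uncurry_apply_pair, norm_mul, fs_norm, one_mul,
            Complex.norm_real, Real.norm_of_nonneg (hph0 z)]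
        rw [h6]
        exact hphInt.mul_const _
    have h7 : ∀ x : Pl, fsE x ξ * ((Sm s g x : ℝ) : ℂ)
        = ∫ z : Pl, fsE x ξ * ((ph z : ℂ) * (g (x - s • z) : ℂ)) := by
      intro x
      unfold Sm
      rw [← integral_complex_ofReal, ← integral_const_mul]
      refine integral_congr_ae (Filter.Eventually.of_forall fun z => ?_)
      simp only []
      push_cast
      ring
    have h8 : ∀ z : Pl, ∫ x : Pl, fsE x ξ * ((ph z : ℂ) * (g (x - s • z) : ℂ))
        = fsE z (s • ξ) * (ph z : ℂ) * ∫ x : Pl, fsE x ξ * (g x : ℂ) := by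
      intro z
      rw [← integral_const_mul, ← integral_sub_right_eq_self
        (fun x : Pl => fsE z (s • ξ) * (ph z : ℂ) * (fsE x ξ * (g x : ℂ))) (s • z)]
      refine integral_congr_ae (Filter.Eventually.of_forall fun x => ?_)
      simp only []
      have h9 : fsE x ξ = fsE z (s • ξ) * fsE (x - s • z) ξ := by
        rw [← fs_smul, ← fs_add]
        congr 1
        abel
      rw [h9]
      ring
    rw [fs_ft, fs_ft g, fs_ft ph]
    simp_rw [h7]
    rw [integral_integral_swap hF]
    simp_rw [h8]
    rw [integral_mul_const]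
  · intro ξ
    rw [fs_ft]
    refine (norm_integral_le_integral_norm _).trans ?_
    have h1 : ∀ x : Pl, ‖fsE x ξ * (ph x : ℂ)‖ = ph x := fun x => by
      rw [norm_mul, fs_norm, one_mul, Complex.norm_real, Real.norm_of_nonneg (hph0 x)]
    simp_rw [h1]
    exact hphI.le
  · intro ξ
    have h0 : (1 : ℂ) = ∫ x : Pl, (ph x : ℂ) := by
      rw [integral_complex_ofReal, hphI]
      simp
    have hphC : Integrable fun x : Pl => (ph x : ℂ) := hphInt.ofReal
    rw [fs_ft, h0, ← integral_sub hphC (fs_intE ph hphInt ξ)]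
    refine (norm_integral_le_integral_norm _).trans ?_
    have h2 : ∫ x : Pl, ‖(ph x : ℂ) - fsE x ξ * (ph x : ℂ)‖
        ≤ ∫ x : Pl, 2 * Real.pi * ‖ξ‖ * ph x := by
      refine integral_mono_of_nonneg (Filter.Eventually.of_forall fun x => norm_nonneg _)
        (hphInt.const_mul _) (Filter.Eventually.of_forall fun x => ?_)
      simp only []
      have h3 : (ph x : ℂ) - fsE x ξ * (ph x : ℂ) = -((fsE x ξ - 1) * (ph x : ℂ)) := by ring
      rw [h3, norm_neg, norm_mul, Complex.norm_real, Real.norm_of_nonneg (hph0 x)]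
      by_cases hx : 1 ≤ ‖x‖
      · rw [hph1 x hx]
        simp
      · push Not at hx
        refine mul_le_mul_of_nonneg_right ?_ (hph0 x)
        have h4 : ‖fsE x ξ - 1‖ ≤ ‖(-2 * Real.pi * ⟪x, ξ⟫ : ℝ)‖ := by
          unfold fsE
          rw [mul_comm]
          exact Real.norm_exp_I_mul_ofReal_sub_one_le
        refine h4.trans ?_
        have h5 := abs_real_inner_le_norm x ξ
        rw [Real.norm_eq_abs, abs_mul, abs_mul, abs_neg, abs_two, abs_of_pos Real.pi_pos]
        have h6 : ‖x‖ * ‖ξ‖ ≤ 1 * ‖ξ‖ := mul_le_mul_of_nonneg_right hx.le (norm_nonneg _)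
        have h7 : |⟪x, ξ⟫| ≤ ‖ξ‖ := by linarith
        exact mul_le_mul_of_nonneg_left h7 (by positivity)
    refine h2.trans ?_
    rw [integral_const_mul, hphI, mul_one]
  · intro g h hg hh ξ
    rw [fs_ft, fs_ft g, fs_ft h, ← integral_sub (fs_intE g (fs_intBB g hg) ξ)
      (fs_intE h (fs_intBB h hh) ξ)]
    refine integral_congr_ae (Filter.Eventually.of_forall fun x => ?_)
    simp only []
    push_cast
    ring

end Pool.Agent.Helper84.LM
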