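import Pool.Agent.Helper98.LM.St

/-! Project LM, module EX: from a positive count to a value with few prime factors. -/

set_option autoImplicit false

noncomputable section

namespace Pool.Agent.Helper84.LM

open Finset
open Pool.Agent.Helper98.LM

private lemma fz_cast {n k : ℕ} (h : k ≤ n) :
    ((k ^ 2 + k * (n - k) + (n - k) ^ 2 : ℕ) : ℤ) = fz n k := by
  unfold fz
  push_cast [Nat.cast_sub h]
  ring

private lemma f_le {n k : ℕ} (h : k ≤ n) : k ^ 2 + k * (n - k) + (n - k) ^ 2 ≤ n ^ 2 := by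
  obtain ⟨d, rfl⟩ := Nat.exists_eq_add_of_le h
  rw [Nat.add_sub_cancel_left]
  nlinarith

private lemma few {f w n : ℕ} (hw : 2 ≤ w) (hf : 0 < f) (hfn : f ≤ n ^ 2)
    (h : ∀ q : ℕ, q.Prime → q ∣ f → w ≤ q) :
    (ArithmeticFunction.cardFactors f : ℝ) * Real.log w ≤ 2 * Real.log n := by
  have h1 : w ^ f.primeFactorsList.length ≤ f := by
    have h2 := List.pow_card_le_prod f.primeFactorsList w fun q hq =>
      h q (Nat.prime_of_mem_primeFactorsList hq) (Nat.dvd_of_mem_primeFactorsList hq)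
    rwa [Nat.prod_primeFactorsList hf.ne'] at h2
  have h3 : ArithmeticFunction.cardFactors f = f.primeFactorsList.length :=
    ArithmeticFunction.cardFactors_apply
  rw [← h3] at h1
  have hw0 : (0 : ℝ) < w := by exact_mod_cast (by omega : 0 < w)
  have h4 : ((w : ℝ)) ^ (ArithmeticFunction.cardFactors f) ≤ (n : ℝ) ^ 2 := by
    exact_mod_cast h1.trans hfn
  have h5 := Real.log_le_log (pow_pos hw0 _) h4
  rw [Real.log_pow, Real.log_pow] at h5
  exact_mod_cast h5

theorem hEX : StEX := by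
  intro p w J n hw hn hX
  obtain ⟨P, hP⟩ : ∃ P : ℕ, P = primorial p := ⟨_, rfl⟩
  rw [← hP] at hn hX ⊢
  have hP0 : 0 < P := by rw [hP]; exact primorial_pos p
  have hsq : Squarefree P := by rw [hP]; exact squarefree_primorial p
  obtain ⟨a, ha⟩ : ∃ a : ℕ, a = n % P := ⟨_, rfl⟩
  obtain ⟨g, hg⟩ : ∃ g : ℕ, g = Nat.gcd P a := ⟨_, rfl⟩
  obtain ⟨r, hr⟩ : ∃ r : ℕ, r = P / g := ⟨_, rfl⟩
  rw [← ha, ← hg, ← hr] at hX
  have hgP : g ∣ P := hg ▸ Nat.gcd_dvd_left P a
  have hga : g ∣ a := hg ▸ Nat.gcd_dvd_right P a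
  have hg0 : 0 < g := Nat.pos_of_dvd_of_pos hgP hP0
  have hrg : r * g = P := by rw [hr]; exact Nat.div_mul_cancel hgP
  have hr0 : 0 < r := by
    rcases Nat.eq_zero_or_pos r with h | h
    · rw [h, zero_mul] at hrg; omega
    · exact h
  have hrP : r ≤ P := by
    rw [← hrg]; exact Nat.le_mul_of_pos_right r hg0
  obtain ⟨j, hj⟩ := Finset.card_pos.1 hX
  obtain ⟨hj1, hj2⟩ := Finset.mem_filter.1 hj
  obtain ⟨hj3, hj4⟩ := Finset.mem_Icc.1 hj1
  have hnP : n = a + P * (n / P) := by rw [ha]; exact (Nat.mod_add_div n P).symm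
  have hkP : r + P * j ≤ P * (J + 1) := by
    have h1 : P * j ≤ P * J := Nat.mul_le_mul_left P hj4
    rw [Nat.mul_add, Nat.mul_one]
    omega
  obtain ⟨k, hk⟩ : ∃ k : ℕ, k = r + P * j := ⟨_, rfl⟩
  rw [← hk] at hkP
  have hkn : k ≤ n := hkP.trans hn
  have hk1 : 1 ≤ k := by rw [hk]; omega
  refine ⟨k, hk1, hkP, ?_⟩
  have hf0 : 0 < k ^ 2 + k * (n - k) + (n - k) ^ 2 := by
    have : 0 < k ^ 2 := by positivity
    omega
  refine few hw hf0 (f_le hkn) fun q hq hqf => ?_
  -- the prime divisor in the integers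
  have hqz : (q : ℤ) ∣ fz n k := by
    rw [← fz_cast hkn]
    exact_mod_cast hqf
  have hqi : Prime (q : ℤ) := Nat.prime_iff_prime_int.1 hq
  have hfz : fz n k = (n : ℤ) ^ 2 - n * k + k ^ 2 := rfl
  by_contra hlt
  have hlt' : q < w := not_le.1 hlt
  by_cases hqp : q ≤ p
  · have hqP : q ∣ P := by rw [hP]; exact (Nat.Prime.dvd_primorial_iff hq).2 hqp
    by_cases hqa : q ∣ a
    · have hqg : q ∣ g := by rw [hg]; exact Nat.dvd_gcd hqP hqa
      have hqr : ¬ q ∣ r := by
        intro h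
        have h1 : q * q ∣ P := by rw [← hrg]; exact Nat.mul_dvd_mul h hqg
        exact hq.one_lt.ne' (Nat.isUnit_iff.1 (hsq q h1))
      have hqk : ¬ q ∣ k := by
        intro h
        apply hqr
        rw [hk] at h
        exact (Nat.dvd_add_left (hqP.mul_right j)).1 h
      have hqn : q ∣ n := by
        rw [hnP]; exact dvd_add hqa (hqP.mul_right _)
      have hqn' : (q : ℤ) ∣ (n : ℤ) := by exact_mod_cast hqn
      have h1 : (q : ℤ) ∣ (k : ℤ) ^ 2 := by
        have e : (k : ℤ) ^ 2 = fz n k - (n : ℤ) * (n - k) := by rw [hfz]; ring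
        rw [e]
        exact dvd_sub hqz (hqn'.mul_right _)
      have h2 := hqi.dvd_of_dvd_pow h1
      exact hqk (by exact_mod_cast h2)
    · have hqg : ¬ q ∣ g := fun h => hqa (h.trans hga)
      have hqr : q ∣ r := by
        have h1 : q ∣ r * g := by rw [hrg]; exact hqP
        exact (hq.dvd_mul.1 h1).resolve_right hqg
      have hqk : q ∣ k := by rw [hk]; exact dvd_add hqr (hqP.mul_right j)
      have hqk' : (q : ℤ) ∣ (k : ℤ) := by exact_mod_cast hqk
      have h1 : (q : ℤ) ∣ (n : ℤ) ^ 2 := by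
        have e : (n : ℤ) ^ 2 = fz n k - (k : ℤ) * (k - n) := by rw [hfz]; ring
        rw [e]
        exact dvd_sub hqz (hqk'.mul_right _)
      have h2 : q ∣ n := by exact_mod_cast hqi.dvd_of_dvd_pow h1
      rw [hnP] at h2
      exact hqa ((Nat.dvd_add_left (hqP.mul_right _)).1 h2)
  · have hqQ : q ∈ QQ p w := by
      unfold QQ
      exact Finset.mem_filter.2 ⟨Finset.mem_Ioc.2 ⟨not_le.1 hqp, hlt'.le⟩, hq⟩
    apply hj2 q hqQ
    have e1 : ((a : ℤ) + P * ((n / P : ℕ) : ℤ)) = (n : ℤ) := by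
      exact_mod_cast hnP.symm
    have e2 : ((r : ℤ) + P * j) = (k : ℤ) := by
      rw [hk]; push_cast; ring
    rw [e1, e2]
    exact hqz

end Pool.Agent.Helper84.LM
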